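import Pool.Agent.Helper63.Pak.Basic

/-! Function fields inside `Ω` (piece RB, part 1). -/

namespace Pool.Agent.Helper63.Pak

open IntermediateField

section FFields

variable {Ω : Type} [Field Ω] [Algebra ℂ Ω]

theorem transcendental_not_mem_bot {t : Ω} (ht : Transcendental ℂ t) :
    t ∉ (⊥ : IntermediateField ℂ Ω) := by
  intro h
  obtain ⟨c, rfl⟩ := mem_bot.1 h
  exact ht (isAlgebraic_algebraMap c)

theorem ff_adjoin {t : Ω} (ht : Transcendental ℂ t) : FF ℂ⟮t⟯ := by
  refine ⟨fg_adjoin_of_finite (Set.finite_singleton t), fun h => ?_⟩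
  apply transcendental_not_mem_bot ht
  rw [← h]
  exact mem_adjoin_simple_self ℂ t

theorem FF.exists_transcendental {K : IntermediateField ℂ Ω} (hK : FF K) :
    ∃ t ∈ K, Transcendental ℂ t := by
  by_contra hcon
  push Not at hcon
  apply hK.2
  rw [eq_bot_iff]
  intro z hz
  have hz1 : IsAlgebraic ℂ z := by
    by_contra h
    exact hcon z hz h
  rw [mem_bot]
  exact minpoly.mem_range_of_degree_eq_one ℂ z
    (IsAlgClosed.degree_eq_one_of_irreducible ℂ (minpoly.irreducible hz1.isIntegral))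

theorem ff_of_fg {K : IntermediateField ℂ Ω} (hK : K.FG) {t : Ω} (ht : Transcendental ℂ t)
    (h : t ∈ K) : FF K :=
  ⟨hK, fun hb => transcendental_not_mem_bot ht (hb ▸ h)⟩

theorem FF.sup {K K' : IntermediateField ℂ Ω} (h : FF K) (h' : FF K') : FF (K ⊔ K') := by
  obtain ⟨t, ht, htt⟩ := h.exists_transcendental
  exact ff_of_fg (fg_sup h.1 h'.1) htt ((le_sup_left : K ≤ K ⊔ K') ht)

theorem FF.sup_adjoin {K : IntermediateField ℂ Ω} (h : FF K) (z : Ω) : FF (K ⊔ ℂ⟮z⟯) := by
  obtain ⟨t, ht, htt⟩ := h.exists_transcendental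
  exact ff_of_fg (fg_sup h.1 (fg_adjoin_of_finite (Set.finite_singleton z))) htt
    ((le_sup_left : K ≤ K ⊔ ℂ⟮z⟯) ht)

theorem FF.map {K : IntermediateField ℂ Ω} (h : FF K) (g : Ω ≃ₐ[ℂ] Ω) : FF (mapF g K) := by
  obtain ⟨t, ht, htt⟩ := h.exists_transcendental
  have hfg : (mapF g K).FG := by
    obtain ⟨s, hs⟩ := h.1
    rw [fg_def]
    refine ⟨g '' s, s.finite_toSet.image _, ?_⟩
    rw [mapF, ← hs, adjoin_map]
    rfl
  refine ff_of_fg hfg (t := g t) ?_ (apply_mem_mapF.2 ht)
  exact fun hg => htt ((isAlgebraic_algHom_iff (g : Ω →ₐ[ℂ] Ω) g.injective).1 hg)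

variable [CurveUniverse Ω]

theorem isAlgebraic_over {t : Ω} (ht : Transcendental ℂ t) : Algebra.IsAlgebraic ℂ⟮t⟯ Ω := by
  have h1 : AlgebraicIndependent ℂ (fun _ : Unit => t) :=
    (algebraicIndependent_unique_type_iff).2 ht
  have h2 : IsTranscendenceBasis ℂ (fun _ : Unit => t) := by
    apply h1.isTranscendenceBasis_of_trdeg_le_of_finite
    rw [CurveUniverse.trdeg_eq]
    simp
  have h3 := h2.isAlgebraic_field
  rwa [Set.range_const] at h3

theorem isAlgebraic_over_of_mem {K : IntermediateField ℂ Ω} {t : Ω} (ht : Transcendental ℂ t)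
    (h : t ∈ K) : Algebra.IsAlgebraic K Ω := by
  have h1 := isAlgebraic_over ht
  have h2 : ℂ⟮t⟯ ≤ K := adjoin_simple_le_iff.2 h
  constructor
  intro z
  have h3 := h1.isAlgebraic z
  let : Algebra ℂ⟮t⟯ K := (inclusion h2).toAlgebra
  have : IsScalarTower ℂ⟮t⟯ K Ω := IsScalarTower.of_algebraMap_eq fun _ => rfl
  exact h3.extendScalars (inclusion h2).injective

/-- intermediate fields of a function-field extension are function fields -/
theorem FF.of_le_of_le {K L K' : IntermediateField ℂ Ω} (h : FF K) (h' : FF K') (h1 : K ≤ L)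
    (h2 : L ≤ K') : FF L := by
  obtain ⟨t, ht, htt⟩ := h.exists_transcendental
  have htL : ℂ⟮t⟯ ≤ L := adjoin_simple_le_iff.2 (h1 ht)
  have htK : ℂ⟮t⟯ ≤ K' := htL.trans h2
  refine ff_of_fg ?_ htt (h1 ht)
  have halg := isAlgebraic_over htt
  have hfg : (extendScalars htK).FG := by
    apply FG.of_restrictScalars (K := ℂ)
    rw [extendScalars_restrictScalars]
    exact h'.1
  have hes : Algebra.EssFiniteType ℂ⟮t⟯ (extendScalars htK) := essFiniteType_iff.2 hfg
  have halg' : Algebra.IsAlgebraic ℂ⟮t⟯ (extendScalars htK) :=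
    inferInstance
  have hfin : Module.Finite ℂ⟮t⟯ (extendScalars htK) :=
    Algebra.finite_of_essFiniteType_of_isAlgebraic
  have hle : extendScalars htL ≤ extendScalars htK := h2
  have hfinL : FiniteDimensional ℂ⟮t⟯ (extendScalars htL) := by
    have : FiniteDimensional ℂ⟮t⟯ (Subalgebra.toSubmodule (extendScalars htK).toSubalgebra) := hfin
    exact Submodule.finiteDimensional_of_le
      (S₁ := Subalgebra.toSubmodule (extendScalars htL).toSubalgebra)
      (S₂ := Subalgebra.toSubmodule (extendScalars htK).toSubalgebra) hle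
  have hfgL : (extendScalars htL).FG := by
    rw [← essFiniteType_iff]
    infer_instance
  obtain ⟨s, hs⟩ := hfgL
  rw [fg_def]
  refine ⟨{t} ∪ s, (Set.finite_singleton t).union s.finite_toSet, ?_⟩
  rw [← adjoin_adjoin_left, hs, extendScalars_restrictScalars]

theorem exists_transcendental_omega : ∃ t : Ω, Transcendental ℂ t := by
  by_contra hcon
  push Not at hcon
  have h1 : Algebra.IsAlgebraic ℂ Ω := ⟨fun z => by
    by_contra h
    exact hcon z h⟩
  have h2 := CurveUniverse.trdeg_eq (Ω := Ω)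
  rw [trdeg_eq_zero_iff.2 h1] at h2
  exact zero_ne_one h2

end FFields

end Pool.Agent.Helper63.Pak
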