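import Pool.Agent.Helper63.Pak.Basic
import Pool.Agent.Helper33.Pak.FFields

/-! Piece RA, Omega half: values of rational functions at elements of `Ω`. -/

namespace Pool.Agent.Helper63.Pak

open IntermediateField

section RAOmega

variable {A B : RatFunc ℂ} {Ω : Type} [Field Ω] [Algebra ℂ Ω]

theorem ev_eq_aeval (A : RatFunc ℂ) (y : Ω) :
    ev A y = Polynomial.aeval y A.num / Polynomial.aeval y A.denom := by
  rw [ev, RatFunc.eval, Polynomial.aeval_def, Polynomial.aeval_def]

theorem algEquiv_eq_ev {y : Ω} (hy : Transcendental ℂ y) (Q : RatFunc ℂ) :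
    ((RatFunc.algEquivOfTranscendental y hy Q : ℂ⟮y⟯) : Ω) = ev Q y := by
  rw [RatFunc.algEquivOfTranscendental_apply, ev_eq_aeval]

/-- evaluation at a transcendental element as an algebra homomorphism -/
noncomputable def evHom (y : Ω) (hy : Transcendental ℂ y) : RatFunc ℂ →ₐ[ℂ] Ω :=
  (ℂ⟮y⟯.val).comp (RatFunc.algEquivOfTranscendental y hy).toAlgHom

theorem evHom_apply {y : Ω} (hy : Transcendental ℂ y) (Q : RatFunc ℂ) :
    evHom y hy Q = ev Q y := algEquiv_eq_ev hy Q

theorem ev_X (y : Ω) : ev RatFunc.X y = y := by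
  rw [ev_eq_aeval]
  simp

theorem ne_C_of_rdeg_pos (hA : 1 ≤ rdeg A) (c : ℂ) : A ≠ RatFunc.C c := by
  rintro rfl
  simp [rdeg] at hA

theorem ev_comp {y : Ω} (hy : Transcendental ℂ y) (_hB : 1 ≤ rdeg B) :
    ev (comp A B) y = ev A (ev B y) := by
  have h1 : comp A B = Polynomial.aeval B A.num / Polynomial.aeval B A.denom := by
    rw [comp, RatFunc.eval, Polynomial.aeval_def, Polynomial.aeval_def, RatFunc.algebraMap_eq_C]
  rw [← evHom_apply hy, h1, map_div₀, ← Polynomial.aeval_algHom_apply,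
    ← Polynomial.aeval_algHom_apply, evHom_apply hy, ← ev_eq_aeval]

theorem ev_comp' {y : Ω} (hy : Transcendental ℂ y) :
    ev (comp A B) y = ev A (ev B y) := by
  have h1 : comp A B = Polynomial.aeval B A.num / Polynomial.aeval B A.denom := by
    rw [comp, RatFunc.eval, Polynomial.aeval_def, Polynomial.aeval_def, RatFunc.algebraMap_eq_C]
  rw [← evHom_apply hy, h1, map_div₀, ← Polynomial.aeval_algHom_apply,
    ← Polynomial.aeval_algHom_apply, evHom_apply hy, ← ev_eq_aeval]

theorem ev_iter {y : Ω} (hy : Transcendental ℂ y) (_hA : 1 ≤ rdeg A) (n : ℕ) :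
    ev (iter A n) y = (ev A)^[n] y := by
  induction n with
  | zero => exact ev_X y
  | succ n ih =>
    rw [Function.iterate_succ_apply', ← ih]
    exact ev_comp' hy

theorem ev_injective {y : Ω} (hy : Transcendental ℂ y) (h : ev A y = ev B y) : A = B := by
  rw [← evHom_apply hy, ← evHom_apply hy] at h
  exact (evHom y hy).injective h

theorem transcendental_ev {y : Ω} (hy : Transcendental ℂ y) (hA : 1 ≤ rdeg A) :
    Transcendental ℂ (ev A y) := by
  rw [← evHom_apply hy]
  intro h
  rw [isAlgebraic_algHom_iff (evHom y hy) (evHom y hy).injective] at h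
  exact RatFunc.transcendental_of_ne_C A (fun ⟨c, hc⟩ => ne_C_of_rdeg_pos hA c hc) h

theorem ev_mem {K : IntermediateField ℂ Ω} {y : Ω} (hy : y ∈ K) : ev A y ∈ K := by
  rw [ev_eq_aeval]
  have h : ∀ p : Polynomial ℂ, Polynomial.aeval y p ∈ K := by
    intro p
    have h1 : Polynomial.aeval y p = K.val (Polynomial.aeval (⟨y, hy⟩ : K) p) := by
      rw [← Polynomial.aeval_algHom_apply]
      rfl
    rw [h1]
    exact (Polynomial.aeval (⟨y, hy⟩ : K) p).2
  exact div_mem (h _) (h _)

theorem ev_map (g : Ω ≃ₐ[ℂ] Ω) (y : Ω) : g (ev A y) = ev A (g y) := by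
  have h : ∀ p : Polynomial ℂ, g (Polynomial.aeval y p) = Polynomial.aeval (g y) p := fun p =>
    (Polynomial.aeval_algHom_apply (g : Ω →ₐ[ℂ] Ω) y p).symm
  rw [ev_eq_aeval, ev_eq_aeval, map_div₀, h, h]

/-- every element of `ℂ(y)` is `Q(y)` -/
theorem exists_ev_of_mem {y z : Ω} (hy : Transcendental ℂ y) (hz : z ∈ ℂ⟮y⟯) :
    ∃ Q : RatFunc ℂ, z = ev Q y := by
  refine ⟨(RatFunc.algEquivOfTranscendental y hy).symm ⟨z, hz⟩, ?_⟩
  rw [← algEquiv_eq_ev hy, AlgEquiv.apply_symm_apply]

theorem relfinrank_ev {y : Ω} (hy : Transcendental ℂ y) (hA : 1 ≤ rdeg A) :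
    ℂ⟮ev A y⟯.relfinrank ℂ⟮y⟯ = rdeg A := by
  have h1 : (⊤ : IntermediateField ℂ (RatFunc ℂ)).map (evHom y hy) = ℂ⟮y⟯ := by
    rw [← RatFunc.adjoin_X, adjoin_map, Set.image_singleton]
    rw [evHom_apply, ev_X]
  have h2 : (ℂ⟮A⟯).map (evHom y hy) = ℂ⟮ev A y⟯ := by
    rw [adjoin_map, Set.image_singleton, evHom_apply]
  rw [← h2]
  conv_lhs => rw [← h1]
  rw [relfinrank_map_map, relfinrank_top_right, RatFunc.finrank_eq_max_natDegree]
  rfl

theorem transcendental_of_ev {t y : Ω} (ht : Transcendental ℂ t) (h : ev A y = t) :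
    Transcendental ℂ y := by
  by_contra hcon
  have hz1 : IsAlgebraic ℂ y := by
    by_contra h'
    exact hcon h'
  have h1 : y ∈ (⊥ : IntermediateField ℂ Ω) := by
    rw [mem_bot]
    exact minpoly.mem_range_of_degree_eq_one ℂ y
      (IsAlgClosed.degree_eq_one_of_irreducible ℂ (minpoly.irreducible hz1.isIntegral))
  apply transcendental_not_mem_bot ht
  rw [← h]
  exact ev_mem h1

/-- the polynomial whose roots are the solutions of `A(y) = t` -/
noncomputable def preimPoly (A : RatFunc ℂ) (t : Ω) : Polynomial Ω :=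
  A.num.map (algebraMap ℂ Ω) - Polynomial.C t * A.denom.map (algebraMap ℂ Ω)

theorem preimPoly_natDegree {t : Ω} (ht : Transcendental ℂ t) (hA : 1 ≤ rdeg A) :
    (preimPoly A t).coeff (rdeg A) ≠ 0 := by
  rw [preimPoly, Polynomial.coeff_sub, Polynomial.coeff_C_mul, Polynomial.coeff_map,
    Polynomial.coeff_map]
  intro h
  by_cases h0 : A.denom.coeff (rdeg A) = 0
  · rw [h0, map_zero, mul_zero, sub_zero, map_eq_zero] at h
    have h1 : A.denom.natDegree ≠ rdeg A := by
      intro h2
      rw [← h2] at h0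
      exact A.denom_ne_zero (Polynomial.leadingCoeff_eq_zero.1 h0)
    have h2 : A.num.natDegree = rdeg A := by
      rcases max_choice A.num.natDegree A.denom.natDegree with h3 | h3
      · exact h3.symm
      · exact absurd h3.symm h1
    rw [← h2] at h
    have h3 := Polynomial.leadingCoeff_eq_zero.1 h
    rw [h3, Polynomial.natDegree_zero] at h2
    omega
  · apply transcendental_not_mem_bot ht
    rw [mem_bot]
    refine ⟨A.num.coeff (rdeg A) / A.denom.coeff (rdeg A), ?_⟩
    rw [map_div₀, div_eq_iff (by rwa [Ne, map_eq_zero])]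
    exact sub_eq_zero.1 h

theorem preimPoly_ne_zero {t : Ω} (ht : Transcendental ℂ t) (hA : 1 ≤ rdeg A) :
    preimPoly A t ≠ 0 := by
  intro h
  apply preimPoly_natDegree ht hA
  rw [h, Polynomial.coeff_zero]

theorem eval_preimPoly (A : RatFunc ℂ) (t y : Ω) : (preimPoly A t).eval y =
    Polynomial.aeval y A.num - t * Polynomial.aeval y A.denom := by
  rw [preimPoly, Polynomial.eval_sub, Polynomial.eval_mul, Polynomial.eval_C,
    Polynomial.eval_map_algebraMap, Polynomial.eval_map_algebraMap]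

theorem ev_eq_iff_root {t y : Ω} (ht : Transcendental ℂ t) :
    ev A y = t ↔ (preimPoly A t).eval y = 0 := by
  rw [eval_preimPoly, ev_eq_aeval]
  have ht0 : t ≠ 0 := by
    rintro rfl
    exact ht (isAlgebraic_zero)
  constructor
  · intro h
    have h1 : Polynomial.aeval y A.denom ≠ 0 := by
      intro h2
      rw [h2, div_zero] at h
      exact ht0 h.symm
    rw [div_eq_iff h1] at h
    rw [h, sub_self]
  · intro h
    have h1 : Polynomial.aeval y A.denom ≠ 0 := by
      intro h2
      rw [h2, mul_zero, sub_zero] at h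
      obtain ⟨p, q, hpq⟩ := A.isCoprime_num_denom
      have h3 := congrArg (Polynomial.aeval y) hpq
      rw [map_add, map_mul, map_mul, h, h2, mul_zero, mul_zero, add_zero, map_one] at h3
      exact zero_ne_one h3
    rw [div_eq_iff h1]
    exact sub_eq_zero.1 h

/-- preimages exist, are finite in number -/
theorem exists_ev_eq [CurveUniverse Ω] {t : Ω} (ht : Transcendental ℂ t) (hA : 1 ≤ rdeg A) :
    ∃ y, Transcendental ℂ y ∧ ev A y = t := by
  have hac : IsAlgClosed Ω := CurveUniverse.isAlgClosed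
  have hdeg : (preimPoly A t).degree ≠ 0 := by
    intro h
    have h1 := Polynomial.le_degree_of_ne_zero (preimPoly_natDegree ht hA)
    rw [h] at h1
    have h2 : rdeg A ≤ 0 := by exact_mod_cast h1
    omega
  obtain ⟨y, hy⟩ := IsAlgClosed.exists_root _ hdeg
  have h := (ev_eq_iff_root (A := A) ht).2 hy
  exact ⟨y, transcendental_of_ev ht h, h⟩

theorem finite_ev_eq {t : Ω} (ht : Transcendental ℂ t) (hA : 1 ≤ rdeg A) :
    {y | ev A y = t}.Finite := by
  refine (Polynomial.finite_setOfPred_isRoot (preimPoly_ne_zero ht hA)).subset ?_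
  intro y hy
  exact (ev_eq_iff_root ht).1 hy

end RAOmega

end Pool.Agent.Helper63.Pak
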