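import Pool.Agent.Helper33.Pak.PLine

/-! Towers (piece RB, part 3). -/

namespace Pool.Agent.Helper63.Pak

open IntermediateField

section Towers

variable {Ω : Type} [Field Ω] [Algebra ℂ Ω]
variable {A : RatFunc ℂ} {x x' : ℤ → Ω}

theorem algEquivOfTranscendental_eq_ev {y : Ω} (hy : Transcendental ℂ y) (Q : RatFunc ℂ) :
    ((RatFunc.algEquivOfTranscendental y hy Q : ℂ⟮y⟯) : Ω) = ev Q y := by
  rw [RatFunc.algEquivOfTranscendental_apply, ev, RatFunc.eval, Polynomial.aeval_def,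
    Polynomial.aeval_def]

theorem Tower.ff (hx : Tower A x) (n : ℤ) : FF (Cx x n) := ff_adjoin (hx.trans n)

theorem Tower.le (hx : Tower A x) (n : ℤ) (k : ℕ) : Cx x n ≤ Cx x (n + k) := by
  induction k with
  | zero => simp
  | succ k ih =>
    refine ih.trans ?_
    have h1 : n + ((k + 1 : ℕ) : ℤ) = n + k + 1 := by push_cast; ring
    rw [h1, Cx, ← hx.step (n + k)]
    exact adjoin_ev_le A _

theorem Tower.le' (hx : Tower A x) {n m : ℤ} (h : n ≤ m) : Cx x n ≤ Cx x m := by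
  obtain ⟨k, rfl⟩ := Int.le.dest h
  exact hx.le n k

theorem Tower.iterate_eq (hx : Tower A x) (n : ℤ) (k : ℕ) : (ev A)^[k] (x (n + k)) = x n := by
  induction k with
  | zero => simp
  | succ k ih =>
    have h1 : n + ((k + 1 : ℕ) : ℤ) = n + k + 1 := by push_cast; ring
    rw [h1, Function.iterate_succ_apply, hx.step, ih]

theorem Tower.ev_iter_eq (hA : 1 ≤ rdeg A) (hx : Tower A x) (n : ℤ) (k : ℕ) :
    ev (iter A k) (x (n + k)) = x n := by
  rw [ev_iter (hx.trans _) hA, hx.iterate_eq]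

theorem Tower.relfinrank_eq (hA : 1 ≤ rdeg A) (hx : Tower A x) (n : ℤ) (k : ℕ) :
    (Cx x n).relfinrank (Cx x (n + k)) = rdeg A ^ k := by
  have h := relfinrank_ev (hx.trans (n + k)) (rdeg_iter_pos hA k)
  rw [hx.ev_iter_eq hA, rdeg_iter] at h
  exact h

theorem Tower.val_eq (hPT : PTFacts Ω) (hx : Tower A x) (v : Pt Ω) (n : ℤ) (k : ℕ) :
    val v (x n) = (pmap A)^[k] (val v (x (n + k))) := by
  induction k with
  | zero => simp
  | succ k ih =>
    have h1 : n + ((k + 1 : ℕ) : ℤ) = n + k + 1 := by push_cast; ring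
    rw [h1, Function.iterate_succ_apply, ← hPT.val_ev v A (hx.trans _), hx.step, ih]

theorem Tower.shift (hx : Tower A x) (m : ℤ) : Tower A (fun n => x (n + m)) where
  trans n := hx.trans (n + m)
  step n := by
    have h1 : n + 1 + m = n + m + 1 := by ring
    simp only [h1]
    exact hx.step (n + m)

theorem Tower.map (hx : Tower A x) (g : Ω ≃ₐ[ℂ] Ω) : Tower A (fun n => g (x n)) where
  trans n := fun hg => hx.trans n ((isAlgebraic_algHom_iff (g : Ω →ₐ[ℂ] Ω) g.injective).1 hg)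
  step n := by
    rw [← ev_map, hx.step]

theorem Tower.eq_of_le (hx : Tower A x) (hx' : Tower A x') {m : ℤ} (h : x m = x' m) {n : ℤ}
    (hn : n ≤ m) : x n = x' n := by
  obtain ⟨k, rfl⟩ := Int.le.dest hn
  rw [← hx.iterate_eq n k, ← hx'.iterate_eq n k, h]

/-- every `q`-th term of an `A`-tower is an `iter A q`-tower -/
theorem Tower.pow (hA : 1 ≤ rdeg A) (hx : Tower A x) (q : ℕ) :
    Tower (iter A q) (fun n => x (q * n)) where
  trans n := hx.trans _
  step n := by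
    have h1 : (q : ℤ) * (n + 1) = q * n + q := by ring
    simp only [h1]
    exact hx.ev_iter_eq hA _ q

section curve

variable [CurveUniverse Ω]

theorem Tower.e_eq (hPT : PTFacts Ω) (hA : 1 ≤ rdeg A) (hx : Tower A x) (v : Pt Ω) (n : ℤ)
    (k : ℕ) : e v (Cx x n) (Cx x (n + k)) = locIter A k (val v (x (n + k))) := by
  rw [← locDeg_iter hPT hA, ← hPT.e_ev v _ (hx.trans _) (rdeg_iter_pos hA k),
    hx.ev_iter_eq hA]

/-- the isomorphism `ℂ(x n) → ℂ(x' n)` -/
noncomputable def towerIso (hx : Tower A x) (hx' : Tower A x') (n : ℤ) : Cx x n ≃ₐ[ℂ] Cx x' n :=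
  (RatFunc.algEquivOfTranscendental (x n) (hx.trans n)).symm.trans
    (RatFunc.algEquivOfTranscendental (x' n) (hx'.trans n))

omit [CurveUniverse Ω] in
theorem towerIso_ev (hx : Tower A x) (hx' : Tower A x') (n : ℤ) (Q : RatFunc ℂ)
    (h : ev Q (x n) ∈ Cx x n) :
    ((towerIso hx hx' n ⟨ev Q (x n), h⟩ : Cx x' n) : Ω) = ev Q (x' n) := by
  have h1 : (⟨ev Q (x n), h⟩ : Cx x n) =
      RatFunc.algEquivOfTranscendental (x n) (hx.trans n) Q := by
    apply Subtype.ext
    rw [algEquivOfTranscendental_eq_ev]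
  rw [towerIso, AlgEquiv.trans_apply, h1, AlgEquiv.symm_apply_apply,
    algEquivOfTranscendental_eq_ev]

omit [CurveUniverse Ω] in
theorem towerIso_compat (hA : 1 ≤ rdeg A) (hx : Tower A x) (hx' : Tower A x') {n m : ℤ}
    (hnm : n ≤ m) {z : Ω} (hz : z ∈ Cx x n) (hz' : z ∈ Cx x m) :
    ((towerIso hx hx' n ⟨z, hz⟩ : Cx x' n) : Ω) = towerIso hx hx' m ⟨z, hz'⟩ := by
  obtain ⟨Q, rfl⟩ := exists_ev_of_mem (hx.trans n) hz
  rw [towerIso_ev]
  obtain ⟨k, rfl⟩ := Int.le.dest hnm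
  have h1 : ∀ {y : ℤ → Ω}, Tower A y → ev Q (y n) = ev (comp Q (iter A k)) (y (n + k)) := by
    intro y hy
    rw [ev_comp (hy.trans _) (rdeg_iter_pos hA k), hy.ev_iter_eq hA]
  have h2 : (⟨ev Q (x n), hz'⟩ : Cx x (n + k)) =
      ⟨ev (comp Q (iter A k)) (x (n + k)), h1 hx ▸ hz'⟩ := Subtype.ext (h1 hx)
  rw [h2, towerIso_ev, h1 hx']

theorem Tower.exists_conj (hA : 1 ≤ rdeg A) (hx : Tower A x) (hx' : Tower A x') :
    ∃ g : Ω ≃ₐ[ℂ] Ω, ∀ n, g (x n) = x' n := by
  let K : ℤ → Subalgebra ℂ Ω := fun n => (Cx x n).toSubalgebra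
  have hmono : Monotone (fun n : ℤ => Cx x n) := fun n m h => hx.le' h
  have hdir : Directed (· ≤ ·) (fun n : ℤ => Cx x n) := hmono.directed_le
  have dir : Directed (· ≤ ·) K := hdir
  let f : ∀ n, K n →ₐ[ℂ] Ω := fun n => (Cx x' n).val.comp (towerIso hx hx' n).toAlgHom
  have hf0 : ∀ n m (z : Ω) (hz : z ∈ K n) (hz' : z ∈ K m), f n ⟨z, hz⟩ = f m ⟨z, hz'⟩ := by
    intro n m z hz hz'
    rcases le_total n m with h | h
    · exact towerIso_compat hA hx hx' h hz hz'
    · exact (towerIso_compat hA hx hx' h hz' hz).symm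
  have hf : ∀ (i j : ℤ) (h : K i ≤ K j), f i = (f j).comp (Subalgebra.inclusion h) := by
    intro i j h
    apply AlgHom.ext
    intro z
    exact hf0 i j z z.2 (h z.2)
  let L : IntermediateField ℂ Ω := ⨆ n, Cx x n
  have hL : L.toSubalgebra ≤ iSup K := by
    rw [toSubalgebra_iSup_of_directed hdir]
  let F : L →ₐ[ℂ] Ω := Subalgebra.iSupLift K dir f hf L.toSubalgebra hL
  have hxL : ∀ n, x n ∈ L := fun n =>
    (le_iSup (fun n => Cx x n) n : Cx x n ≤ L) (mem_adjoin_simple_self ℂ (x n))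
  have hF : ∀ n, F ⟨x n, hxL n⟩ = x' n := by
    intro n
    have h1 : F ⟨x n, hxL n⟩ = f n ⟨x n, mem_adjoin_simple_self ℂ (x n)⟩ :=
      Subalgebra.iSupLift_of_mem (K := K) (dir := dir) (hf := hf) (hT := hL) _ _
    rw [h1]
    have h2 := towerIso_ev hx hx' n RatFunc.X (by rw [ev_X]; exact mem_adjoin_simple_self ℂ (x n))
    simp only [ev_X] at h2
    exact h2
  have hx'R : x' 0 ∈ F.fieldRange := ⟨⟨x 0, hxL 0⟩, hF 0⟩
  have halg1 : Algebra.IsAlgebraic L Ω := isAlgebraic_over_of_mem (hx.trans 0) (hxL 0)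
  have halg2 : Algebra.IsAlgebraic F.fieldRange Ω := isAlgebraic_over_of_mem (hx'.trans 0) hx'R
  have hac : IsAlgClosed Ω := CurveUniverse.isAlgClosed
  have hc1 : IsAlgClosure L Ω := ⟨hac, halg1⟩
  have hc2 : IsAlgClosure F.fieldRange Ω := ⟨hac, halg2⟩
  let E : L ≃ₐ[ℂ] F.fieldRange := AlgEquiv.ofInjectiveField F
  have hE : ∀ z, ((E z : F.fieldRange) : Ω) = F z := fun z => rfl
  let G : Ω ≃+* Ω := IsAlgClosure.equivOfEquiv Ω Ω (E : L ≃+* F.fieldRange)
  have hG : ∀ z : L, G (z : Ω) = F z := by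
    intro z
    have h1 := IsAlgClosure.equivOfEquiv_algebraMap Ω Ω (E : L ≃+* F.fieldRange) z
    exact h1
  have hGc : ∀ c : ℂ, G (algebraMap ℂ Ω c) = algebraMap ℂ Ω c := by
    intro c
    have h1 := hG (algebraMap ℂ L c)
    rw [F.commutes] at h1
    exact h1
  refine ⟨AlgEquiv.ofRingEquiv hGc, fun n => ?_⟩
  have h1 := hG ⟨x n, hxL n⟩
  rw [hF] at h1
  exact h1

theorem exists_shift (hA : 1 ≤ rdeg A) (hx : Tower A x) :
    ∃ σ : Ω ≃ₐ[ℂ] Ω, ∀ n, σ (x n) = x (n + 1) :=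
  hx.exists_conj hA (hx.shift 1)

theorem exists_tower (hA : 1 ≤ rdeg A) {t : Ω} (ht : Transcendental ℂ t) :
    ∃ x : ℤ → Ω, Tower A x ∧ x 0 = t := by
  choose! p hp1 hp2 using fun (s : Ω) (hs : Transcendental ℂ s) => exists_ev_eq (A := A) hs hA
  let a : ℕ → Ω := fun n => p^[n] t
  let b : ℕ → Ω := fun n => (ev A)^[n] t
  have ha : ∀ n, Transcendental ℂ (a n) := by
    intro n
    induction n with
    | zero => exact ht
    | succ n ih =>
      change Transcendental ℂ (p^[n + 1] t)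
      rw [Function.iterate_succ_apply']
      exact hp1 _ ih
  have hb : ∀ n, Transcendental ℂ (b n) := by
    intro n
    induction n with
    | zero => exact ht
    | succ n ih =>
      change Transcendental ℂ ((ev A)^[n + 1] t)
      rw [Function.iterate_succ_apply']
      exact transcendental_ev ih hA
  have ha' : ∀ n, ev A (a (n + 1)) = a n := by
    intro n
    change ev A (p^[n + 1] t) = _
    rw [Function.iterate_succ_apply']
    exact hp2 _ (ha n)
  have hb' : ∀ n, ev A (b n) = b (n + 1) := by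
    intro n
    change _ = (ev A)^[n + 1] t
    rw [Function.iterate_succ_apply']
  let x : ℤ → Ω := fun n => match n with
    | Int.ofNat n => a n
    | Int.negSucc n => b (n + 1)
  refine ⟨x, ⟨?_, ?_⟩, rfl⟩
  · rintro (n | n)
    · exact ha n
    · exact hb (n + 1)
  · rintro (n | n)
    · exact ha' n
    · rcases n with _ | n
      · exact hb' 0
      · exact hb' (n + 1)

end curve

end Towers

end Pool.Agent.Helper63.Pak
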