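import Pool.Agent.Helper33.Pak.FFields
import Pool.Agent.Helper63.Pak.RARat

/-! The projective line (piece RB, part 2). -/

namespace Pool.Agent.Helper63.Pak

open IntermediateField

section PLine

variable {Ω : Type} [Field Ω] [Algebra ℂ Ω] [CurveUniverse Ω]
variable {A B : RatFunc ℂ}

omit [CurveUniverse Ω] in
theorem chi_nonneg_of_le (hPT : PTFacts Ω) {K K' : IntermediateField ℂ Ω} (hK : FF K)
    (hK' : FF K') (h : K ≤ K') (hc : 0 ≤ chi K') : 0 ≤ chi K := by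
  have h1 := hPT.chi_eq hK hK' h
  have h2 := hPT.relfinrank_pos hK hK' h
  by_contra h3
  have h4 : (K.relfinrank K' : ℤ) * chi K < 0 :=
    mul_neg_of_pos_of_neg (by exact_mod_cast h2) (not_le.1 h3)
  omega

omit [CurveUniverse Ω] in
theorem chi_pos_of_le (hPT : PTFacts Ω) {K K' : IntermediateField ℂ Ω} (hK : FF K)
    (hK' : FF K') (h : K ≤ K') (hc : 0 < chi K') : 0 < chi K := by
  have h1 := hPT.chi_eq hK hK' h
  have h2 := hPT.relfinrank_pos hK hK' h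
  by_contra h3
  have h4 : (K.relfinrank K' : ℤ) * chi K ≤ 0 :=
    mul_nonpos_of_nonneg_of_nonpos (by exact_mod_cast h2.le) (not_lt.1 h3)
  omega

omit [CurveUniverse Ω] in
theorem adjoin_ev_le (A : RatFunc ℂ) (y : Ω) : ℂ⟮ev A y⟯ ≤ ℂ⟮y⟯ :=
  adjoin_simple_le_iff.2 (ev_mem (mem_adjoin_simple_self ℂ y))

theorem pmap_comp (hPT : PTFacts Ω) (hB : 1 ≤ rdeg B) (q : OnePoint ℂ) :
    pmap (comp A B) q = pmap A (pmap B q) := by
  obtain ⟨y, hy⟩ := exists_transcendental_omega (Ω := Ω)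
  obtain ⟨v, rfl⟩ := hPT.exists_val hy q
  rw [← hPT.val_ev v _ hy, ev_comp hy hB, hPT.val_ev v A (transcendental_ev hy hB),
    hPT.val_ev v B hy]

theorem locDeg_comp (hPT : PTFacts Ω) (hA : 1 ≤ rdeg A) (hB : 1 ≤ rdeg B) (q : OnePoint ℂ) :
    locDeg (comp A B) q = locDeg A (pmap B q) * locDeg B q := by
  obtain ⟨y, hy⟩ := exists_transcendental_omega (Ω := Ω)
  obtain ⟨v, rfl⟩ := hPT.exists_val hy q
  have hAB : 1 ≤ rdeg (comp A B) := by
    rw [rdeg_comp]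
    exact Nat.mul_pos hA hB
  rw [← hPT.e_ev v _ hy hAB, ev_comp hy hB, e_mul v (adjoin_ev_le A (ev B y)) (adjoin_ev_le B y),
    hPT.e_ev v A (transcendental_ev hy hB) hA, hPT.e_ev v B hy hB, hPT.val_ev v B hy]

theorem rdeg_iter_pos (hA : 1 ≤ rdeg A) (k : ℕ) : 1 ≤ rdeg (iter A k) := by
  rw [rdeg_iter]
  exact Nat.one_le_pow _ _ hA

theorem rdeg_X_pos : 1 ≤ rdeg RatFunc.X := by
  simp [rdeg]

theorem pmap_X (hPT : PTFacts Ω) (q : OnePoint ℂ) : pmap RatFunc.X q = q := by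
  obtain ⟨y, hy⟩ := exists_transcendental_omega (Ω := Ω)
  obtain ⟨v, rfl⟩ := hPT.exists_val hy q
  rw [← hPT.val_ev v _ hy, ev_X]

theorem locDeg_X (hPT : PTFacts Ω) (q : OnePoint ℂ) : locDeg RatFunc.X q = 1 := by
  obtain ⟨y, hy⟩ := exists_transcendental_omega (Ω := Ω)
  obtain ⟨v, rfl⟩ := hPT.exists_val hy q
  rw [← hPT.e_ev v _ hy rdeg_X_pos, ev_X, e_self]

theorem pmap_iter (hPT : PTFacts Ω) (hA : 1 ≤ rdeg A) (k : ℕ) (q : OnePoint ℂ) :
    pmap (iter A k) q = (pmap A)^[k] q := by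
  induction k with
  | zero => exact pmap_X hPT q
  | succ k ih =>
    rw [Function.iterate_succ_apply', ← ih]
    exact pmap_comp hPT (rdeg_iter_pos hA k) q

theorem pmap_iter_eq (hPT : PTFacts Ω) (hA : 1 ≤ rdeg A) (k : ℕ) :
    pmap (iter A k) = (pmap A)^[k] := funext (pmap_iter hPT hA k)

theorem locDeg_iter (hPT : PTFacts Ω) (hA : 1 ≤ rdeg A) (k : ℕ) (q : OnePoint ℂ) :
    locDeg (iter A k) q = locIter A k q := by
  induction k with
  | zero => exact (locDeg_X hPT q).trans (by simp [locIter])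
  | succ k ih =>
    rw [locIter, Finset.prod_range_succ, ← locIter, ← ih, ← pmap_iter hPT hA, mul_comm]
    exact locDeg_comp hPT hA (rdeg_iter_pos hA k) q

theorem locDeg_pos (hPT : PTFacts Ω) (hA : 1 ≤ rdeg A) (q : OnePoint ℂ) : 0 < locDeg A q := by
  obtain ⟨y, hy⟩ := exists_transcendental_omega (Ω := Ω)
  obtain ⟨v, rfl⟩ := hPT.exists_val hy q
  rw [← hPT.e_ev v _ hy hA]
  exact hPT.e_pos v (ff_adjoin (transcendental_ev hy hA)) (ff_adjoin hy) (adjoin_ev_le A y)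

theorem locIter_pos (hPT : PTFacts Ω) (hA : 1 ≤ rdeg A) (k : ℕ) (q : OnePoint ℂ) :
    0 < locIter A k q := by
  rw [← locDeg_iter hPT hA]
  exact locDeg_pos hPT (rdeg_iter_pos hA k) q

omit [CurveUniverse Ω] in
/-- the places of `ℂ(y)` are the points of `P^1(ℂ)` -/
theorem val_pt_bijective (hPT : PTFacts Ω) {y : Ω} (hy : Transcendental ℂ y) :
    Function.Bijective (fun P : Pl ℂ⟮y⟯ => val P.pt y) := by
  constructor
  · intro P Q h
    have h1 := Pl.mk_eq_mk.2 (hPT.sameOn_adjoin hy h)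
    rwa [Pl.mk_pt, Pl.mk_pt] at h1
  · intro q
    obtain ⟨v, rfl⟩ := hPT.exists_val hy q
    exact ⟨Pl.mk _ v, hPT.val_eq_of_sameOn (Pl.sameOn_pt_mk _ v) (mem_adjoin_simple_self ℂ y)⟩

omit [CurveUniverse Ω] in
theorem fibre_bijOn (hPT : PTFacts Ω) (hA : 1 ≤ rdeg A) {y : Ω} (hy : Transcendental ℂ y)
    (v : Pt Ω) :
    Set.BijOn (fun P : Pl ℂ⟮y⟯ => val P.pt y) {P : Pl ℂ⟮y⟯ | SameOn ℂ⟮ev A y⟯ P.pt v}
      (pmap A ⁻¹' {val v (ev A y)}) := by
  have hiff : ∀ P : Pl ℂ⟮y⟯, SameOn ℂ⟮ev A y⟯ P.pt v ↔ pmap A (val P.pt y) = val v (ev A y) := by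
    intro P
    rw [← hPT.val_ev _ _ hy]
    exact ⟨fun h => hPT.val_eq_of_sameOn h (mem_adjoin_simple_self ℂ _),
      fun h => hPT.sameOn_adjoin (transcendental_ev hy hA) h⟩
  refine ⟨fun P hP => (hiff P).1 hP, (val_pt_bijective hPT hy).1.injOn, fun q hq => ?_⟩
  obtain ⟨P, hP⟩ := (val_pt_bijective hPT hy).2 q
  refine ⟨P, (hiff P).2 ?_, hP⟩
  rw [show val P.pt y = q from hP]
  exact hq

theorem fibre_finite (hPT : PTFacts Ω) (hA : 1 ≤ rdeg A) (p : OnePoint ℂ) :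
    (pmap A ⁻¹' {p}).Finite := by
  obtain ⟨y, hy⟩ := exists_transcendental_omega (Ω := Ω)
  obtain ⟨v, rfl⟩ := hPT.exists_val (transcendental_ev hy hA) p
  have h1 := hPT.finite_over v (ff_adjoin (transcendental_ev hy hA)) (ff_adjoin hy)
    (adjoin_ev_le A y)
  rw [← (fibre_bijOn hPT hA hy v).image_eq]
  exact h1.image _

theorem sum_fibre (hPT : PTFacts Ω) (hA : 1 ≤ rdeg A) (p : OnePoint ℂ) :
    ∑ᶠ q ∈ pmap A ⁻¹' {p}, locDeg A q = rdeg A := by
  obtain ⟨y, hy⟩ := exists_transcendental_omega (Ω := Ω)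
  obtain ⟨v, rfl⟩ := hPT.exists_val (transcendental_ev hy hA) p
  rw [← relfinrank_ev hy hA, ← hPT.sum_e v (ff_adjoin (transcendental_ev hy hA)) (ff_adjoin hy)
    (adjoin_ev_le A y)]
  symm
  apply finsum_mem_eq_of_bijOn _ (fibre_bijOn hPT hA hy v)
  intro P _
  exact hPT.e_ev _ _ hy hA

theorem pmap_surjective (hPT : PTFacts Ω) (hA : 1 ≤ rdeg A) : Function.Surjective (pmap A) := by
  intro p
  by_contra hcon
  have h1 := sum_fibre hPT hA p
  have h2 : pmap A ⁻¹' {p} = ∅ := by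
    ext q
    simp only [Set.mem_preimage, Set.mem_singleton_iff, Set.mem_empty_iff_false, iff_false]
    exact fun h => hcon ⟨q, h⟩
  rw [h2, finsum_mem_empty] at h1
  omega

theorem crit_finite (hPT : PTFacts Ω) (hA : 1 ≤ rdeg A) : {q | locDeg A q ≠ 1}.Finite := by
  obtain ⟨y, hy⟩ := exists_transcendental_omega (Ω := Ω)
  have h1 := hPT.finite_ram (ff_adjoin (transcendental_ev hy hA)) (ff_adjoin hy)
    (adjoin_ev_le A y)
  refine (h1.image (fun P : Pl ℂ⟮y⟯ => val P.pt y)).subset ?_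
  intro q hq
  obtain ⟨P, hP⟩ := (val_pt_bijective hPT hy).2 q
  refine ⟨P, ?_, hP⟩
  have h2 : e P.pt ℂ⟮ev A y⟯ ℂ⟮y⟯ = locDeg A (val P.pt y) := hPT.e_ev _ _ hy hA
  rw [show val P.pt y = q from hP] at h2
  change e P.pt ℂ⟮ev A y⟯ ℂ⟮y⟯ ≠ 1
  rw [h2]
  exact hq

theorem riemann_hurwitz (hPT : PTFacts Ω) (hA : 1 ≤ rdeg A) :
    ∑ᶠ q, (locDeg A q - 1) = 2 * rdeg A - 2 := by
  obtain ⟨y, hy⟩ := exists_transcendental_omega (Ω := Ω)
  have h1 := hPT.chi_eq (ff_adjoin (transcendental_ev hy hA)) (ff_adjoin hy)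
    (adjoin_ev_le A y)
  rw [hPT.chi_adjoin hy, hPT.chi_adjoin (transcendental_ev hy hA), relfinrank_ev hy hA] at h1
  have h2 : Ram ℂ⟮ev A y⟯ ℂ⟮y⟯ = ∑ᶠ q, (locDeg A q - 1) := by
    rw [Ram]
    apply finsum_eq_of_bijective _ (val_pt_bijective hPT hy)
    intro P
    rw [hPT.e_ev _ _ hy hA]
  rw [← h2]
  omega

theorem iter_fibre_finite (hPT : PTFacts Ω) (hA : 1 ≤ rdeg A) (k : ℕ) (p : OnePoint ℂ) :
    ((pmap A)^[k] ⁻¹' {p}).Finite := by
  rw [← pmap_iter_eq hPT hA]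
  exact fibre_finite hPT (rdeg_iter_pos hA k) p

theorem sum_iter_fibre (hPT : PTFacts Ω) (hA : 1 ≤ rdeg A) (k : ℕ) (p : OnePoint ℂ) :
    ∑ᶠ q ∈ (pmap A)^[k] ⁻¹' {p}, locIter A k q = rdeg A ^ k := by
  rw [← pmap_iter_eq hPT hA, ← rdeg_iter, ← sum_fibre hPT (rdeg_iter_pos hA k) p]
  simp only [locDeg_iter hPT hA]

/-- Riemann–Hurwitz restricted to finitely many values -/
theorem rh_finset (hPT : PTFacts Ω) (hA : 1 ≤ rdeg A) (S : Finset (OnePoint ℂ)) :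
    ∑ q ∈ S, ((rdeg A : ℤ) - (pmap A ⁻¹' {q}).ncard) ≤ 2 * (rdeg A : ℤ) - 2 := by
  classical
  let Cf := (crit_finite hPT hA).toFinset
  let F : OnePoint ℂ → Finset (OnePoint ℂ) := fun q => (fibre_finite hPT hA q).toFinset
  have hF : ∀ q q', q' ∈ F q ↔ pmap A q' = q := fun q q' => by simp [F]
  have h1 : ∑ᶠ q, (locDeg A q - 1) = ∑ q ∈ Cf, (locDeg A q - 1) := by
    apply finsum_eq_sum_of_support_subset
    intro q hq
    simp only [Function.mem_support] at hq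
    simp only [Cf, Set.Finite.coe_toFinset, Set.mem_ofPred_eq]
    omega
  rw [riemann_hurwitz hPT hA] at h1
  have h2 : ∀ q, (rdeg A : ℤ) - (pmap A ⁻¹' {q}).ncard = ((∑ q' ∈ F q, (locDeg A q' - 1) : ℕ) : ℤ) := by
    intro q
    have h3 := sum_fibre hPT hA q
    rw [finsum_mem_eq_finite_toFinset_sum _ (fibre_finite hPT hA q)] at h3
    rw [Set.ncard_eq_toFinset_card _ (fibre_finite hPT hA q), ← h3]
    push_cast
    rw [Finset.card_eq_sum_ones]
    push_cast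
    rw [← Finset.sum_sub_distrib]
    refine Finset.sum_congr rfl fun q' _ => ?_
    have := locDeg_pos hPT hA q'
    push_cast [Nat.cast_sub (show 1 ≤ locDeg A q' from this)]
    rfl
  simp only [h2]
  have h4 : ∑ q ∈ S, ∑ q' ∈ F q, (locDeg A q' - 1) ≤ ∑ q ∈ Cf, (locDeg A q - 1) := by
    rw [← Finset.sum_biUnion]
    · calc ∑ q' ∈ S.biUnion F, (locDeg A q' - 1) ≤ ∑ q' ∈ S.biUnion F ∪ Cf, (locDeg A q' - 1) :=
            Finset.sum_le_sum_of_subset Finset.subset_union_left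
        _ = ∑ q ∈ Cf, (locDeg A q - 1) := by
          symm
          apply Finset.sum_subset Finset.subset_union_right
          intro q _ hq
          simp only [Cf, Set.Finite.mem_toFinset, Set.mem_ofPred_eq, not_not] at hq
          omega
    · intro q _ q' _ hne
      rw [Function.onFun, Finset.disjoint_left]
      intro z hz hz'
      exact hne (((hF q z).1 hz).symm.trans ((hF q' z).1 hz'))
  have h5 : 1 ≤ rdeg A := hA
  rw [← Nat.cast_sum]
  omega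

/-- Riemann–Hurwitz for the `k`-th iterate, restricted to finitely many values -/
theorem iter_rh (hPT : PTFacts Ω) (hA : 1 ≤ rdeg A) (k : ℕ) (S : Finset (OnePoint ℂ)) :
    ∑ q ∈ S, ((rdeg A : ℤ) ^ k - ((pmap A)^[k] ⁻¹' {q}).ncard) ≤ 2 * (rdeg A : ℤ) ^ k - 2 := by
  have h := rh_finset hPT (rdeg_iter_pos hA k) S
  rw [pmap_iter_eq hPT hA, rdeg_iter] at h
  push_cast at h
  exact h

end PLine

end Pool.Agent.Helper63.Pak
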